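import Pool.Agent.Q88.KO.Stm

/-!
# The Orlicz space on `[0,1]` with the Luxemburg norm is a Banach space
-/

set_option autoImplicit false

namespace Pool.Agent.Q190.KO

open MeasureTheory Set Filter Topology Pool.Agent.Q88.KO
open scoped ENNReal

variable {Φ : ℝ → ℝ}

theorem contAbs (h : IsOrlicz Φ) : Continuous fun x : ℝ => Φ |x| :=
  h.cont.comp_continuous continuous_abs (fun x => abs_nonneg x)

theorem phi_nonneg (h : IsOrlicz Φ) {x : ℝ} (hx : 0 ≤ x) : 0 ≤ Φ x := by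
  have := h.mono (Set.mem_Ici.2 (le_refl (0:ℝ))) hx hx
  rwa [h.zero] at this

/-- scaling down -/
theorem phi_scale (h : IsOrlicz Φ) {x θ : ℝ} (hx : 0 ≤ x) (h0 : 0 ≤ θ) (h1 : θ ≤ 1) :
    Φ (θ * x) ≤ θ * Φ x := by
  have := h.convex.2 (Set.mem_Ici.2 hx) (Set.mem_Ici.2 (le_refl (0:ℝ))) h0
    (sub_nonneg.2 h1) (by ring)
  simpa [h.zero] using this

theorem rho_congr {f g : ℝ → ℝ} (hfg : f =ᵐ[mu] g) : rho Φ f = rho Φ g := by
  unfold rho
  exact lintegral_congr_ae (by filter_upwards [hfg] with t ht; rw [ht])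

theorem rho_zero (h : IsOrlicz Φ) : rho Φ (fun _ => 0) = 0 := by
  unfold rho
  simp [h.zero]

theorem rho_add (h : IsOrlicz Φ) {f g : ℝ → ℝ} (hf : AEMeasurable f mu) {s t : ℝ} (hs : 0 < s)
    (ht : 0 < t) :
    rho Φ (fun x => (f x + g x) / (s + t)) ≤ ENNReal.ofReal (s / (s + t)) * rho Φ (fun x => f x / s)
      + ENNReal.ofReal (t / (s + t)) * rho Φ (fun x => g x / t) := by
  have hst : 0 < s + t := add_pos hs ht
  have e1 : 0 ≤ s / (s + t) := by positivity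
  have e2 : 0 ≤ t / (s + t) := by positivity
  have e3 : s / (s + t) + t / (s + t) = 1 := by field_simp
  have m1 : AEMeasurable (fun x => ENNReal.ofReal (Φ |f x / s|)) mu :=
    ((contAbs h).measurable.comp_aemeasurable (hf.div_const s)).ennreal_ofReal
  unfold rho
  rw [← lintegral_const_mul' _ _ ENNReal.ofReal_ne_top,
    ← lintegral_const_mul' _ _ ENNReal.ofReal_ne_top,
    ← lintegral_add_left' (m1.const_mul _)]
  refine lintegral_mono fun x => ?_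
  show ENNReal.ofReal (Φ |(f x + g x) / (s + t)|) ≤ ENNReal.ofReal (s / (s + t)) *
    ENNReal.ofReal (Φ |f x / s|) + ENNReal.ofReal (t / (s + t)) * ENNReal.ofReal (Φ |g x / t|)
  have n1 := phi_nonneg h (abs_nonneg (f x / s))
  have n2 := phi_nonneg h (abs_nonneg (g x / t))
  rw [← ENNReal.ofReal_mul e1, ← ENNReal.ofReal_mul e2,
    ← ENNReal.ofReal_add (mul_nonneg e1 n1) (mul_nonneg e2 n2)]
  refine ENNReal.ofReal_le_ofReal ?_
  have h1 : |(f x + g x) / (s + t)| ≤ s / (s + t) * |f x / s| + t / (s + t) * |g x / t| := by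
    have h2 : s / (s + t) * |f x / s| + t / (s + t) * |g x / t| = (|f x| + |g x|) / (s + t) := by
      rw [abs_div, abs_div, abs_of_pos hs, abs_of_pos ht]
      field_simp
    rw [h2, abs_div, abs_of_pos hst]
    gcongr
    exact abs_add_le _ _
  have h3 := h.convex.2 (Set.mem_Ici.2 (abs_nonneg (f x / s)))
    (Set.mem_Ici.2 (abs_nonneg (g x / t))) e1 e2 e3
  simp only [smul_eq_mul] at h3
  refine le_trans (h.mono (Set.mem_Ici.2 (abs_nonneg _)) ?_ h1) h3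
  exact add_nonneg (mul_nonneg e1 (abs_nonneg _)) (mul_nonneg e2 (abs_nonneg _))

theorem rho_scale (h : IsOrlicz Φ) {f : ℝ → ℝ} {s K : ℝ} (hs : 0 < s) (hK : 1 ≤ K) :
    rho Φ (fun x => f x / (K * s)) ≤ ENNReal.ofReal (1 / K) * rho Φ (fun x => f x / s) := by
  have hK0 : 0 < K := by linarith
  unfold rho
  rw [← lintegral_const_mul' _ _ ENNReal.ofReal_ne_top]
  refine lintegral_mono fun x => ?_
  show ENNReal.ofReal (Φ |f x / (K * s)|) ≤ ENNReal.ofReal (1 / K) * ENNReal.ofReal (Φ |f x / s|)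
  rw [← ENNReal.ofReal_mul (by positivity)]
  refine ENNReal.ofReal_le_ofReal ?_
  have h1 : |f x / (K * s)| = (1 / K) * |f x / s| := by
    rw [abs_div, abs_div, abs_mul, abs_of_pos hs, abs_of_pos hK0]
    field_simp
  rw [h1]
  exact phi_scale h (abs_nonneg _) (by positivity) (by rw [div_le_one hK0]; exact hK)

theorem rho_up (h : IsOrlicz Φ) {f : ℝ → ℝ} {s s' : ℝ} (hs : 0 < s) (hss : s ≤ s')
    (h1 : rho Φ (fun x => f x / s) ≤ 1) : rho Φ (fun x => f x / s') ≤ 1 := by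
  have hK : 1 ≤ s' / s := by rw [le_div_iff₀ hs]; linarith
  have h2 := rho_scale h (f := f) hs hK
  have h3 : s' / s * s = s' := by field_simp
  rw [h3] at h2
  refine h2.trans ?_
  calc ENNReal.ofReal (1 / (s' / s)) * rho Φ (fun x => f x / s) ≤ 1 * 1 := by
        refine mul_le_mul' ?_ h1
        rw [ENNReal.ofReal_le_one, div_le_one (by linarith)]
        exact hK
    _ = 1 := one_mul _

theorem rho_fin (h : IsOrlicz Φ) {f : ℝ → ℝ} {s : ℝ} (hs : 0 < s)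
    (h1 : rho Φ (fun x => f x / s) < ⊤) : ∃ s' : ℝ, 0 < s' ∧ rho Φ (fun x => f x / s') ≤ 1 := by
  set r := (rho Φ (fun x => f x / s)).toReal with hr
  have hr0 : 0 ≤ r := ENNReal.toReal_nonneg
  have hK : 1 ≤ 1 + r := by linarith
  refine ⟨(1 + r) * s, by positivity, ?_⟩
  refine (rho_scale h (f := f) hs hK).trans ?_
  rw [← ENNReal.ofReal_toReal h1.ne, ← ENNReal.ofReal_mul (by positivity), ENNReal.ofReal_le_one]
  rw [← hr, one_div, inv_mul_le_iff₀ (by linarith)]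
  linarith

/-- the carrier -/
noncomputable def Esp (Φ : ℝ → ℝ) (h : IsOrlicz Φ) : Submodule ℝ (ℝ →ₘ[mu] ℝ) where
  carrier := {f | ∃ s : ℝ, 0 < s ∧ rho Φ (fun t => f t / s) < ⊤}
  zero_mem' := by
    refine ⟨1, one_pos, ?_⟩
    have h0 : (fun t => ((0 : ℝ →ₘ[mu] ℝ) t) / 1) =ᵐ[mu] fun _ => 0 := by
      filter_upwards [AEEqFun.coeFn_zero (β := ℝ) (μ := mu)] with t ht
      rw [ht]; simp
    rw [rho_congr h0, rho_zero h]
    exact ENNReal.zero_lt_top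
  add_mem' := by
    rintro f g ⟨s, hs, hfs⟩ ⟨t, ht, hgt⟩
    refine ⟨s + t, add_pos hs ht, ?_⟩
    have h0 : (fun x => ((f + g : ℝ →ₘ[mu] ℝ) x) / (s + t)) =ᵐ[mu] fun x => (f x + g x) / (s + t) := by
      filter_upwards [AEEqFun.coeFn_add f g] with x hx
      rw [hx]; rfl
    rw [rho_congr h0]
    refine lt_of_le_of_lt (rho_add h f.aemeasurable hs ht) ?_
    exact ENNReal.add_lt_top.2 ⟨ENNReal.mul_lt_top ENNReal.ofReal_lt_top hfs,
      ENNReal.mul_lt_top ENNReal.ofReal_lt_top hgt⟩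
  smul_mem' := by
    rintro c f ⟨s, hs, hfs⟩
    refine ⟨(|c| + 1) * s, by positivity, ?_⟩
    refine lt_of_le_of_lt ?_ hfs
    unfold rho
    refine lintegral_mono_ae ?_
    filter_upwards [AEEqFun.coeFn_smul c f] with x hx
    refine ENNReal.ofReal_le_ofReal (h.mono (Set.mem_Ici.2 (abs_nonneg _)) (Set.mem_Ici.2 (abs_nonneg _)) ?_)
    rw [hx, Pi.smul_apply, smul_eq_mul, abs_div, abs_div, abs_mul, abs_mul, abs_of_pos hs,
      abs_of_pos (show 0 < |c| + 1 by positivity), div_le_div_iff₀ (by positivity) hs]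
    nlinarith [abs_nonneg c, abs_nonneg (f x), mul_nonneg (abs_nonneg (f x)) hs.le]

/-- the Luxemburg norm -/
noncomputable def lux (Φ : ℝ → ℝ) (f : ℝ →ₘ[mu] ℝ) : ℝ :=
  sInf {s : ℝ | 0 < s ∧ rho Φ (fun t => f t / s) ≤ 1}

theorem lux_nonneg (f : ℝ →ₘ[mu] ℝ) : 0 ≤ lux Φ f :=
  Real.sInf_nonneg fun _ hs => hs.1.le

theorem lux_le {f : ℝ →ₘ[mu] ℝ} {s : ℝ} (hs : 0 < s) (h1 : rho Φ (fun t => f t / s) ≤ 1) :
    lux Φ f ≤ s :=
  csInf_le ⟨0, fun _ hx => hx.1.le⟩ ⟨hs, h1⟩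

theorem lux_lt (h : IsOrlicz Φ) {f : ℝ →ₘ[mu] ℝ} (hf : f ∈ Esp Φ h) {s : ℝ} (hs : lux Φ f < s) :
    rho Φ (fun t => f t / s) ≤ 1 := by
  obtain ⟨s₀, h0, hfs⟩ := hf
  obtain ⟨s₁, h1, hfs1⟩ := rho_fin h h0 hfs
  obtain ⟨s₂, ⟨h2, hfs2⟩, h3⟩ := exists_lt_of_csInf_lt
    (show {s : ℝ | 0 < s ∧ rho Φ (fun t => f t / s) ≤ 1}.Nonempty from ⟨s₁, h1, hfs1⟩) hs
  exact rho_up h h2 h3.le hfs2

theorem lux_smul_le (h : IsOrlicz Φ) {f : ℝ →ₘ[mu] ℝ} (hf : f ∈ Esp Φ h) {c : ℝ} (hc : c ≠ 0) :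
    lux Φ (c • f) ≤ |c| * lux Φ f := by
  have hc' : 0 < |c| := abs_pos.2 hc
  refine le_of_forall_pos_le_add fun ε hε => ?_
  have h1 : lux Φ f < lux Φ f + ε / |c| := by
    have : 0 < ε / |c| := by positivity
    linarith
  have h2 := lux_lt h hf h1
  have h3 : |c| * lux Φ f + ε = |c| * (lux Φ f + ε / |c|) := by field_simp
  have h4 : 0 < lux Φ f + ε / |c| := lt_of_le_of_lt (lux_nonneg f) h1
  rw [h3]
  refine lux_le (by positivity) ?_
  refine le_trans (le_of_eq ?_) h2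
  unfold rho
  refine lintegral_congr_ae ?_
  filter_upwards [AEEqFun.coeFn_smul c f] with x hx
  rw [hx, Pi.smul_apply, smul_eq_mul, abs_div, abs_div, abs_mul, abs_mul, abs_abs,
    mul_div_mul_left _ _ hc'.ne']

theorem lux_zero (h : IsOrlicz Φ) : lux Φ (0 : ℝ →ₘ[mu] ℝ) = 0 := by
  refine le_antisymm ?_ (lux_nonneg _)
  refine le_of_forall_pos_le_add fun ε hε => ?_
  rw [zero_add]
  refine lux_le hε ?_
  have h0 : (fun t => ((0 : ℝ →ₘ[mu] ℝ) t) / ε) =ᵐ[mu] fun _ => 0 := by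
    filter_upwards [AEEqFun.coeFn_zero (β := ℝ) (μ := mu)] with t ht
    rw [ht]; simp
  rw [rho_congr h0, rho_zero h]
  exact zero_le_one

theorem lux_smul (h : IsOrlicz Φ) {f : ℝ →ₘ[mu] ℝ} (hf : f ∈ Esp Φ h) (c : ℝ) :
    lux Φ (c • f) = |c| * lux Φ f := by
  rcases eq_or_ne c 0 with rfl | hc
  · rw [zero_smul, lux_zero h]; simp
  · refine le_antisymm (lux_smul_le h hf hc) ?_
    have h1 := lux_smul_le h ((Esp Φ h).smul_mem c hf) (inv_ne_zero hc)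
    rw [smul_smul, inv_mul_cancel₀ hc, one_smul, abs_inv] at h1
    rwa [inv_mul_eq_div, le_div_iff₀' (abs_pos.2 hc)] at h1

theorem lux_add (h : IsOrlicz Φ) {f g : ℝ →ₘ[mu] ℝ} (hf : f ∈ Esp Φ h) (hg : g ∈ Esp Φ h) :
    lux Φ (f + g) ≤ lux Φ f + lux Φ g := by
  refine le_of_forall_pos_le_add fun ε hε => ?_
  have h1 : lux Φ f < lux Φ f + ε / 2 := by linarith
  have h2 : lux Φ g < lux Φ g + ε / 2 := by linarith
  have p1 : 0 < lux Φ f + ε / 2 := lt_of_le_of_lt (lux_nonneg f) h1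
  have p2 : 0 < lux Φ g + ε / 2 := lt_of_le_of_lt (lux_nonneg g) h2
  have h3 := lux_lt h hf h1
  have h4 := lux_lt h hg h2
  have h5 : lux Φ f + lux Φ g + ε = (lux Φ f + ε / 2) + (lux Φ g + ε / 2) := by ring
  rw [h5]
  refine lux_le (by positivity) ?_
  have h0 : (fun x => ((f + g : ℝ →ₘ[mu] ℝ) x) / ((lux Φ f + ε / 2) + (lux Φ g + ε / 2))) =ᵐ[mu]
      fun x => (f x + g x) / ((lux Φ f + ε / 2) + (lux Φ g + ε / 2)) := by
    filter_upwards [AEEqFun.coeFn_add f g] with x hx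
    rw [hx]; rfl
  rw [rho_congr h0]
  refine (rho_add h f.aemeasurable p1 p2).trans ?_
  set s := lux Φ f + ε / 2
  set t := lux Φ g + ε / 2
  calc ENNReal.ofReal (s / (s + t)) * rho Φ (fun x => f x / s)
      + ENNReal.ofReal (t / (s + t)) * rho Φ (fun x => g x / t)
      ≤ ENNReal.ofReal (s / (s + t)) * 1 + ENNReal.ofReal (t / (s + t)) * 1 := by gcongr
    _ = 1 := by
      rw [mul_one, mul_one, ← ENNReal.ofReal_add (by positivity) (by positivity),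
        ← add_div, div_self (by positivity), ENNReal.ofReal_one]

/-- the `L²` estimate -/
theorem sq_le (h5 : ∀ s, 0 ≤ s → s ^ 2 ≤ 5 * Φ s) {f : ℝ → ℝ} {s : ℝ} (hs : 0 < s)
    (h1 : rho Φ (fun x => f x / s) ≤ 1) :
    ∫⁻ x, ENNReal.ofReal ((f x) ^ 2) ∂mu ≤ ENNReal.ofReal (5 * s ^ 2) := by
  calc ∫⁻ x, ENNReal.ofReal ((f x) ^ 2) ∂mu
      ≤ ∫⁻ x, ENNReal.ofReal (5 * s ^ 2) * ENNReal.ofReal (Φ |f x / s|) ∂mu := by
        refine lintegral_mono fun x => ?_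
        rw [← ENNReal.ofReal_mul (by positivity)]
        refine ENNReal.ofReal_le_ofReal ?_
        have h2 := h5 _ (abs_nonneg (f x / s))
        rw [sq_abs, div_pow, div_le_iff₀ (by positivity)] at h2
        linarith
    _ = ENNReal.ofReal (5 * s ^ 2) * rho Φ (fun x => f x / s) := by
        rw [lintegral_const_mul' _ _ ENNReal.ofReal_ne_top]; rfl
    _ ≤ ENNReal.ofReal (5 * s ^ 2) * 1 := by gcongr
    _ = ENNReal.ofReal (5 * s ^ 2) := mul_one _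

theorem eLp_le (h5 : ∀ s, 0 ≤ s → s ^ 2 ≤ 5 * Φ s) {f : ℝ → ℝ} {s : ℝ} (hs : 0 < s)
    (h1 : rho Φ (fun x => f x / s) ≤ 1) : eLpNorm f 2 mu ≤ ENNReal.ofReal (3 * s) := by
  have h2 := sq_le h5 hs h1
  rw [eLpNorm_eq_lintegral_rpow_enorm_toReal (by norm_num) (by norm_num)]
  have h3 : ∀ x, ‖f x‖ₑ ^ (2 : ℝ≥0∞).toReal = ENNReal.ofReal ((f x) ^ 2) := by
    intro x
    rw [ENNReal.toReal_ofNat, ENNReal.rpow_ofNat, ← ofReal_norm, Real.norm_eq_abs,
      ← ENNReal.ofReal_pow (abs_nonneg _), sq_abs]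
  simp_rw [h3]
  calc (∫⁻ x, ENNReal.ofReal ((f x) ^ 2) ∂mu) ^ (1 / (2 : ℝ≥0∞).toReal)
      ≤ (ENNReal.ofReal (5 * s ^ 2)) ^ (1 / (2 : ℝ≥0∞).toReal) := by gcongr
    _ ≤ (ENNReal.ofReal ((3 * s) ^ 2)) ^ (1 / (2 : ℝ≥0∞).toReal) := by
        gcongr
        nlinarith [sq_nonneg s]
    _ = ENNReal.ofReal (3 * s) := by
        rw [ENNReal.ofReal_pow (by positivity), ENNReal.toReal_ofNat, ← ENNReal.rpow_ofNat,
          ← ENNReal.rpow_mul]
        norm_num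

theorem mem_two (h : IsOrlicz Φ) (h5 : ∀ s, 0 ≤ s → s ^ 2 ≤ 5 * Φ s) {f : ℝ →ₘ[mu] ℝ}
    (hf : f ∈ Esp Φ h) : eLpNorm f 2 mu < ⊤ := by
  obtain ⟨s₀, h0, hfs⟩ := hf
  obtain ⟨s₁, h1, hfs1⟩ := rho_fin h h0 hfs
  exact lt_of_le_of_lt (eLp_le h5 h1 hfs1) ENNReal.ofReal_lt_top

theorem eLp_lux (h : IsOrlicz Φ) (h5 : ∀ s, 0 ≤ s → s ^ 2 ≤ 5 * Φ s) {f : ℝ →ₘ[mu] ℝ}
    (hf : f ∈ Esp Φ h) : eLpNorm f 2 mu ≤ ENNReal.ofReal (3 * lux Φ f) := by
  refine ENNReal.le_of_forall_pos_le_add fun ε hε _ => ?_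
  have h1 : lux Φ f < lux Φ f + ε / 3 := by
    have : (0:ℝ) < ε := hε
    linarith
  have p1 : 0 < lux Φ f + ε / 3 := lt_of_le_of_lt (lux_nonneg f) h1
  refine (eLp_le h5 p1 (lux_lt h hf h1)).trans ?_
  have h2 : 3 * (lux Φ f + ε / 3) = 3 * lux Φ f + ε := by ring
  rw [h2, ENNReal.ofReal_add (by have := lux_nonneg (Φ := Φ) f; positivity)
    (show (0:ℝ) ≤ (ε:ℝ) from ε.2), ENNReal.ofReal_coe_nnreal]

/-- the element of `L²` -/
noncomputable def toTwo (h : IsOrlicz Φ) (h5 : ∀ s, 0 ≤ s → s ^ 2 ≤ 5 * Φ s) (f : Esp Φ h) :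
    Lp ℝ 2 mu := ⟨f.1, mem_two h h5 f.2⟩

/-- completeness -/
theorem complete (h : IsOrlicz Φ) (h5 : ∀ s, 0 ≤ s → s ^ 2 ≤ 5 * Φ s) (u : ℕ → Esp Φ h)
    (hu : ∀ ε : ℝ, 0 < ε → ∃ N : ℕ, ∀ m, N ≤ m → ∀ n, N ≤ n → lux Φ ((u m).1 - (u n).1) < ε) :
    ∃ v : Esp Φ h, ∀ ε : ℝ, 0 < ε → ∃ N : ℕ, ∀ n, N ≤ n → lux Φ ((u n).1 - v.1) ≤ ε := by
  have hc : CauchySeq fun n => toTwo h h5 (u n) := by
    rw [Metric.cauchySeq_iff]
    intro ε hε
    obtain ⟨N, hN⟩ := hu (ε / 4) (by positivity)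
    refine ⟨N, fun m hm n hn => ?_⟩
    have h1 := hN m hm n hn
    have h2 := eLp_lux h h5 ((Esp Φ h).sub_mem (u m).2 (u n).2)
    rw [dist_eq_norm, Lp.norm_def]
    have h3 : eLpNorm (↑(toTwo h h5 (u m) - toTwo h h5 (u n)) : ℝ →ₘ[mu] ℝ) 2 mu =
      eLpNorm ((u m).1 - (u n).1 : ℝ →ₘ[mu] ℝ) 2 mu := rfl
    rw [h3]
    refine lt_of_le_of_lt (ENNReal.toReal_le_of_le_ofReal
      (by have := lux_nonneg (Φ := Φ) ((u m).1 - (u n).1); positivity) h2) ?_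
    linarith
  obtain ⟨v, hv⟩ := cauchySeq_tendsto_of_complete hc
  have hm := tendstoInMeasure_of_tendsto_Lp hv
  obtain ⟨ns, hns, hae⟩ := hm.exists_seq_tendsto_ae
  have key : ∀ ε : ℝ, 0 < ε → ∃ N : ℕ, ∀ n, N ≤ n →
      rho Φ (fun t => ((u n).1 - v.1 : ℝ →ₘ[mu] ℝ) t / ε) ≤ 1 := by
    intro ε hε
    obtain ⟨N, hN⟩ := hu ε hε
    refine ⟨N, fun n hn => ?_⟩
    have h1 : rho Φ (fun t => ((u n).1 - v.1 : ℝ →ₘ[mu] ℝ) t / ε) =
        rho Φ (fun t => ((u n).1 t - v.1 t) / ε) := by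
      refine rho_congr ?_
      filter_upwards [AEEqFun.coeFn_sub (u n).1 v.1] with t ht
      rw [ht]; rfl
    rw [h1]
    have h2 : ∀ᵐ t ∂mu, Tendsto (fun k => ENNReal.ofReal (Φ |((u n).1 t - (u (ns k)).1 t) / ε|))
        atTop (𝓝 (ENNReal.ofReal (Φ |((u n).1 t - v.1 t) / ε|))) := by
      filter_upwards [hae] with t ht
      refine (ENNReal.continuous_ofReal.tendsto _).comp ?_
      refine ((contAbs h).tendsto _).comp ?_
      exact (tendsto_const_nhds.sub ht).div_const ε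
    have h3 : rho Φ (fun t => ((u n).1 t - v.1 t) / ε) =
        ∫⁻ t, liminf (fun k => ENNReal.ofReal (Φ |((u n).1 t - (u (ns k)).1 t) / ε|)) atTop ∂mu := by
      unfold rho
      refine lintegral_congr_ae ?_
      filter_upwards [h2] with t ht
      exact ht.liminf_eq.symm
    rw [h3]
    refine (lintegral_liminf_le' fun k => ?_).trans ?_
    · exact ((contAbs h).measurable.comp_aemeasurable
        (((u n).1.aemeasurable.sub (u (ns k)).1.aemeasurable).div_const ε)).ennreal_ofReal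
    · refine liminf_le_of_frequently_le' (Eventually.frequently ?_)
      filter_upwards [eventually_ge_atTop N] with k hk
      have h4 := lux_lt h ((Esp Φ h).sub_mem (u n).2 (u (ns k)).2)
        (hN n hn (ns k) (hk.trans (hns.id_le k)))
      refine le_trans (le_of_eq ?_) h4
      unfold rho
      refine lintegral_congr_ae ?_
      filter_upwards [AEEqFun.coeFn_sub (u n).1 (u (ns k)).1] with t ht
      rw [ht]; rfl
  have hvE : v.1 ∈ Esp Φ h := by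
    obtain ⟨N, hN⟩ := key 1 one_pos
    have h1 : (u N).1 - v.1 ∈ Esp Φ h := ⟨1, one_pos, lt_of_le_of_lt (hN N le_rfl) ENNReal.one_lt_top⟩
    have h2 := (Esp Φ h).sub_mem (u N).2 h1
    rwa [sub_sub_cancel] at h2
  exact ⟨⟨v.1, hvE⟩, fun ε hε => by
    obtain ⟨N, hN⟩ := key ε hε
    exact ⟨N, fun n hn => lux_le hε (hN n hn)⟩⟩

theorem pB : P_B := by
  intro Φ h h5
  letI nrm : Norm (Esp Φ h) := ⟨fun f => lux Φ f.1⟩
  have core : NormedSpace.Core ℝ (Esp Φ h) :=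
    { norm_nonneg := fun f => lux_nonneg f.1
      norm_smul := fun c f => lux_smul h f.2 c
      norm_triangle := fun f g => lux_add h f.2 g.2
      norm_eq_zero_iff := by
        intro f
        constructor
        · intro hf
          have h1 := eLp_lux h h5 f.2
          have h2 : lux Φ f.1 = 0 := hf
          rw [h2, mul_zero, ENNReal.ofReal_zero, nonpos_iff_eq_zero,
            eLpNorm_eq_zero_iff f.1.aestronglyMeasurable (by norm_num)] at h1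
          exact Subtype.ext (AEEqFun.ext (h1.trans (AEEqFun.coeFn_zero (β := ℝ) (μ := mu)).symm))
        · rintro rfl
          exact lux_zero h }
  letI i1 : NormedAddCommGroup (Esp Φ h) := NormedAddCommGroup.ofCore core
  letI i2 : NormedSpace ℝ (Esp Φ h) := NormedSpace.ofCore core
  have i3 : CompleteSpace (Esp Φ h) := by
    refine Metric.complete_of_cauchySeq_tendsto fun u hu => ?_
    rw [Metric.cauchySeq_iff] at hu
    obtain ⟨v, hv⟩ := complete h h5 u (fun ε hε => by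
      obtain ⟨N, hN⟩ := hu ε hε
      refine ⟨N, fun m hm n hn => ?_⟩
      have := hN m hm n hn
      rwa [dist_eq_norm] at this)
    refine ⟨v, ?_⟩
    rw [Metric.tendsto_atTop]
    intro ε hε
    obtain ⟨N, hN⟩ := hv (ε / 2) (by positivity)
    refine ⟨N, fun n hn => ?_⟩
    rw [dist_eq_norm]
    have h1 : ‖u n - v‖ ≤ ε / 2 := hN n hn
    linarith
  refine ⟨Esp Φ h, i1, i2, i3, (Esp Φ h).subtype, ?_, ?_, ?_⟩
  · exact Subtype.val_injective
  · intro f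
    constructor
    · rintro ⟨e, rfl⟩
      exact e.2
    · intro hf
      exact ⟨⟨f, hf⟩, rfl⟩
  · intro e
    rfl

end Pool.Agent.Q190.KO

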