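import Pool.Agent.Q88.KO.Stm

/-!
# Near or far
-/

set_option autoImplicit false

namespace Pool.Agent.Q190.KO

open MeasureTheory Set Filter Topology Pool.Agent.Q88.KO
open scoped ENNReal

theorem J_sub (c : Cx) (e e' : c.E) : c.J (e - e') =ᵐ[mu] fun t => c.J e t - c.J e' t := by
  rw [map_sub]
  exact AEEqFun.coeFn_sub _ _

theorem meas_J (c : Cx) (e : c.E) : Measurable (c.J e) := (c.J e).stronglyMeasurable.measurable

/-- the supports of disjoint elements have small measures -/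
theorem supp_small (c : Cx) (h : ℕ → c.E) (hd : ∀ m n, m ≠ n → Dj c.J (h m) (h n)) :
    Tendsto (fun n => mu {t | c.J (h n) t ≠ 0}) atTop (𝓝 0) := by
  have hm : ∀ n, MeasurableSet {t | c.J (h n) t ≠ 0} := fun n =>
    (measurableSet_eq_fun (meas_J c (h n)) measurable_const).compl
  have hdj : Pairwise (Function.onFun (AEDisjoint mu) fun n => {t | c.J (h n) t ≠ 0}) := by
    intro m n hmn
    show mu _ = 0
    refine measure_mono_null ?_ (hd m n hmn)
    rintro t ⟨h1, h2⟩ h3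
    rcases h3 with h3 | h3
    · exact h1 h3
    · exact h2 h3
  have h1 := measure_iUnion₀ hdj (fun n => (hm n).nullMeasurableSet)
  refine ENNReal.tendsto_atTop_zero_of_tsum_ne_top ?_
  rw [← h1]
  exact measure_ne_top _ _

theorem small (hB : DictB) (c : Cx) (T : c.E →L[ℝ] c.E) (h : ℕ → c.E)
    (hd : ∀ m n, m ≠ n → Dj c.J (h m) (h n)) (K η : ℝ) (hη : 0 < η) :
    ∀ᶠ n in atTop, ∀ e : c.E, (∀ᵐ t ∂mu, c.J e t = c.J (h n) t ∨ c.J e t = 0) →
      (∀ᵐ t ∂mu, |c.J e t| ≤ K) → ‖T e‖ ≤ η := by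
  obtain ⟨C', hC', h7⟩ := hB.N7 c K
  have hT : 0 < ‖T‖ + 1 := by positivity
  set ξ : ℝ := (η / (‖T‖ + 1)) ^ 4 / C' with hξ
  have hξ0 : 0 < ξ := by positivity
  have h1 := (ENNReal.tendsto_nhds_zero.1 (supp_small c h hd)) (ENNReal.ofReal ξ)
    (ENNReal.ofReal_pos.2 hξ0)
  filter_upwards [h1] with n hn e he hK
  have hm : MeasurableSet {t | c.J (h n) t ≠ 0} :=
    (measurableSet_eq_fun (meas_J c (h n)) measurable_const).compl
  have h2 := h7 e _ hm (by
    filter_upwards [he] with t ht h3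
    rcases ht with ht | ht
    · rw [ht]
      by_contra h4
      exact h3 h4
    · exact ht) hK
  have h3 : (mu {t | c.J (h n) t ≠ 0}).toReal ≤ ξ := ENNReal.toReal_le_of_le_ofReal hξ0.le hn
  have h4 : ‖e‖ ^ 4 ≤ (η / (‖T‖ + 1)) ^ 4 := by
    refine h2.trans ?_
    calc C' * (mu {t | c.J (h n) t ≠ 0}).toReal ≤ C' * ξ := by gcongr
      _ = (η / (‖T‖ + 1)) ^ 4 := by rw [hξ]; field_simp
  have h5 : ‖e‖ ≤ η / (‖T‖ + 1) := le_of_pow_le_pow_left₀ (by norm_num) (by positivity) h4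
  calc ‖T e‖ ≤ ‖T‖ * ‖e‖ := T.le_opNorm e
    _ ≤ (‖T‖ + 1) * (η / (‖T‖ + 1)) := by gcongr; linarith
    _ = η := by field_simp

/-- cutting the small values -/
theorem cutdown (hB : DictB) (c : Cx) (T : c.E →L[ℝ] c.E) (h : ℕ → c.E)
    (hd : ∀ m n, m ≠ n → Dj c.J (h m) (h n)) (k : ℕ) (η : ℝ) (hη : 0 < η) :
    ∀ᶠ n in atTop, ∀ e : c.E, (∀ᵐ t ∂mu, c.J e t = c.J (h n) t ∨ c.J e t = 0) →
      ∃ e' : c.E, (∀ᵐ t ∂mu, (c.J e' t = c.J e t ∧ (k : ℝ) ≤ Real.log |c.J e t|) ∨ c.J e' t = 0) ∧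
        ‖T e‖ - η ≤ ‖T e'‖ := by
  filter_upwards [small hB c T h hd (Real.exp k) η hη] with n hn e he
  have hm : MeasurableSet {t | |c.J e t| < Real.exp k} :=
    measurableSet_lt (meas_J c e).abs measurable_const
  obtain ⟨e₁, h1⟩ := hB.N6 c e _ hm
  have h1' : c.J e₁ =ᵐ[mu] {t | |c.J e t| < Real.exp k}.indicator (c.J e) := h1
  refine ⟨e - e₁, ?_, ?_⟩
  · filter_upwards [J_sub c e e₁, h1'] with t h2 h3
    rw [h2, h3]
    by_cases h4 : |c.J e t| < Real.exp k
    · right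
      rw [indicator_of_mem (show t ∈ {t | |c.J e t| < Real.exp k} from h4), sub_self]
    · left
      rw [indicator_of_notMem (show t ∉ {t | |c.J e t| < Real.exp k} from h4), sub_zero]
      refine ⟨rfl, ?_⟩
      rw [not_lt] at h4
      exact (Real.le_log_iff_exp_le (lt_of_lt_of_le (Real.exp_pos _) h4)).2 h4
  · have h5 : ‖T e₁‖ ≤ η := by
      refine hn e₁ ?_ ?_
      · filter_upwards [h1', he] with t h3 h4
        rw [h3]
        by_cases h5 : t ∈ {t | |c.J e t| < Real.exp k}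
        · rw [indicator_of_mem h5]; exact h4
        · rw [indicator_of_notMem h5]; exact Or.inr rfl
      · filter_upwards [h1'] with t h3
        rw [h3]
        by_cases h5 : t ∈ {t | |c.J e t| < Real.exp k}
        · rw [indicator_of_mem h5]; exact le_of_lt h5
        · rw [indicator_of_notMem h5, abs_zero]; exact (Real.exp_pos _).le
    have h6 : T e = T (e - e₁) + T e₁ := by rw [← map_add, sub_add_cancel]
    have h7 : ‖T e‖ ≤ ‖T (e - e₁)‖ + ‖T e₁‖ := by rw [h6]; exact norm_add_le _ _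
    linarith

theorem pNF (_hA : DictA) (hB : DictB) : P_NF := by
  intro c T h B δ _ hd hδ hT
  have hUm : ∀ (L : ℝ) (n : ℕ), MeasurableSet {t | ∃ z ∈ c.Z, |Real.log |c.J (h n) t| - z| < L} := by
    intro L n
    have h1 : IsOpen {x : ℝ | ∃ z ∈ c.Z, |x - z| < L} := by
      have h2 : {x : ℝ | ∃ z ∈ c.Z, |x - z| < L} = ⋃ z ∈ c.Z, Metric.ball z L := by
        ext x; simp [Metric.mem_ball, Real.dist_eq]
      rw [h2]
      exact isOpen_biUnion fun z _ => Metric.isOpen_ball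
    exact (Real.measurable_log.comp (meas_J c (h n)).abs) h1.measurableSet
  choose u hu using fun (L : ℝ) (n : ℕ) => hB.N6 c (h n) _ (hUm L n)
  have hu' : ∀ L n, c.J (u L n) =ᵐ[mu]
    {t | ∃ z ∈ c.Z, |Real.log |c.J (h n) t| - z| < L}.indicator (c.J (h n)) := hu
  by_cases hcase : ∃ (L δ' : ℝ), 0 < δ' ∧ ∃ᶠ n in atTop, δ' ≤ ‖T (u L n)‖
  · obtain ⟨L, δ', hδ', hfr⟩ := hcase
    have hP : ∀ k : ℕ, ∃ᶠ n in atTop, ∃ e' : c.E,
        (∀ᵐ t ∂mu, c.J e' t = c.J (h n) t ∨ c.J e' t = 0) ∧ δ' / 2 ≤ ‖T e'‖ ∧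
        (∀ᵐ t ∂mu, c.J e' t ≠ 0 → (k : ℝ) ≤ Real.log |c.J e' t| ∧
          ∃ z ∈ c.Z, |Real.log |c.J e' t| - z| ≤ L) := by
      intro k
      refine (hfr.and_eventually (cutdown hB c T h hd k (δ' / 2) (by positivity))).mono ?_
      rintro n ⟨h1, h2⟩
      have h3 : ∀ᵐ t ∂mu, c.J (u L n) t = c.J (h n) t ∨ c.J (u L n) t = 0 := by
        filter_upwards [hu' L n] with t ht
        rw [ht]
        by_cases h5 : t ∈ {t | ∃ z ∈ c.Z, |Real.log |c.J (h n) t| - z| < L}
        · rw [indicator_of_mem h5]; exact Or.inl rfl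
        · rw [indicator_of_notMem h5]; exact Or.inr rfl
      obtain ⟨e', he', hTe'⟩ := h2 (u L n) h3
      refine ⟨e', ?_, by linarith, ?_⟩
      · filter_upwards [h3, he'] with t h4 h5
        rcases h5 with h5 | h5
        · rw [h5.1]; exact h4
        · exact Or.inr h5
      · filter_upwards [hu' L n, he'] with t h4 h5 h6
        rcases h5 with h5 | h5
        · rw [h5.1] at h6 ⊢
          refine ⟨h5.2, ?_⟩
          by_cases h7 : t ∈ {t | ∃ z ∈ c.Z, |Real.log |c.J (h n) t| - z| < L}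
          · rw [indicator_of_mem h7] at h4
            rw [h4]
            obtain ⟨z, hz, hzL⟩ := h7
            exact ⟨z, hz, hzL.le⟩
          · rw [indicator_of_notMem h7] at h4
            exact absurd h4 h6
        · exact absurd h5 h6
    obtain ⟨φ, hφ, hP'⟩ := extraction_forall_of_frequently hP
    choose h' h1 h2 h3 using hP'
    exact ⟨φ, h', hφ, h1, ⟨δ' / 2, by positivity, h2⟩, Or.inl ⟨L, h3⟩⟩
  · push Not at hcase
    have hP : ∀ k : ℕ, ∀ᶠ n in atTop, ∃ e' : c.E,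
        (∀ᵐ t ∂mu, c.J e' t = c.J (h n) t ∨ c.J e' t = 0) ∧ δ / 4 ≤ ‖T e'‖ ∧
        (∀ᵐ t ∂mu, c.J e' t ≠ 0 → (k : ℝ) ≤ Real.log |c.J e' t| ∧
          ∀ z ∈ c.Z, (k : ℝ) ≤ |Real.log |c.J e' t| - z|) := by
      intro k
      have h0 := hcase k (δ / 2) (by positivity)
      filter_upwards [h0, cutdown hB c T h hd k (δ / 4) (by positivity)] with n h1 h2
      have hJ : ∀ᵐ t ∂mu, (c.J (h n - u k n) t = c.J (h n) t ∧
          t ∉ {t | ∃ z ∈ c.Z, |Real.log |c.J (h n) t| - z| < k}) ∨ c.J (h n - u k n) t = 0 := by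
        filter_upwards [hu' k n, J_sub c (h n) (u k n)] with t h3 h4
        rw [h4, h3]
        by_cases h5 : t ∈ {t | ∃ z ∈ c.Z, |Real.log |c.J (h n) t| - z| < k}
        · rw [indicator_of_mem h5, sub_self]; exact Or.inr rfl
        · rw [indicator_of_notMem h5, sub_zero]; exact Or.inl ⟨rfl, h5⟩
      have h3 : ∀ᵐ t ∂mu, c.J (h n - u k n) t = c.J (h n) t ∨ c.J (h n - u k n) t = 0 := by
        filter_upwards [hJ] with t ht
        rcases ht with ht | ht
        · exact Or.inl ht.1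
        · exact Or.inr ht
      obtain ⟨e', he', hTe'⟩ := h2 (h n - u k n) h3
      have h6 : ‖T (h n)‖ ≤ ‖T (h n - u k n)‖ + ‖T (u k n)‖ := by
        have : T (h n) = T (h n - u k n) + T (u k n) := by rw [← map_add, sub_add_cancel]
        rw [this]; exact norm_add_le _ _
      have h7 := hT n
      refine ⟨e', ?_, by linarith, ?_⟩
      · filter_upwards [h3, he'] with t h4 h5
        rcases h5 with h5 | h5
        · rw [h5.1]; exact h4
        · exact Or.inr h5
      · filter_upwards [hJ, he'] with t h4 h5 h6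
        rcases h5 with h5 | h5
        · rw [h5.1] at h6 ⊢
          refine ⟨h5.2, ?_⟩
          rcases h4 with h4 | h4
          · rw [h4.1]
            intro z hz
            by_contra h8
            exact h4.2 ⟨z, hz, not_le.1 h8⟩
          · exact absurd h4 h6
        · exact absurd h5 h6
    obtain ⟨φ, hφ, hP'⟩ := extraction_forall_of_eventually hP
    choose h' h1 h2 h3 using hP'
    exact ⟨φ, h', hφ, h1, ⟨δ / 4, by positivity, h2⟩, Or.inr h3⟩

end Pool.Agent.Q190.KO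

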