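import Pool.Agent.Q190.KO.PNF

/-!
# The lower 2-estimate for weakly null sequences
-/

set_option autoImplicit false

namespace Pool.Agent.Q190.KO

open MeasureTheory Set Filter Topology Pool.Agent.Q88.KO
open scoped ENNReal

theorem low_sub {E : Type} [NormedAddCommGroup E] [NormedSpace ℝ E] {y : ℕ → E} (h : Low y)
    {φ : ℕ → ℕ} (hφ : StrictMono φ) : Low fun k => y (φ k) := by
  classical
  obtain ⟨κ, hκ, h⟩ := h
  refine ⟨κ, hκ, fun s a => ?_⟩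
  have h1 := h (s.map ⟨φ, hφ.injective⟩) (fun n => if hn : ∃ k, φ k = n then a hn.choose else 0)
  have h2 : ∀ k, (if hn : ∃ j, φ j = φ k then a hn.choose else 0) = a k := by
    intro k
    have hn : ∃ j, φ j = φ k := ⟨k, rfl⟩
    rw [dif_pos hn]
    exact congrArg a (hφ.injective hn.choose_spec)
  rw [Finset.sum_map, Finset.sum_map] at h1
  simp only [Function.Embedding.coeFn_mk, h2] at h1
  exact h1

theorem J_sum (c : Cx) (s : Finset ℕ) (a : ℕ → ℝ) (r : ℕ → c.E) :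
    c.J (∑ i ∈ s, a i • r i) =ᵐ[mu] fun t => ∑ i ∈ s, a i * c.J (r i) t := by
  classical
  induction s using Finset.induction_on with
  | empty =>
    simp only [Finset.sum_empty, map_zero]
    exact AEEqFun.coeFn_zero
  | insert j s hj ih =>
    rw [Finset.sum_insert hj, map_add, map_smul]
    filter_upwards [AEEqFun.coeFn_add (a j • c.J (r j)) (c.J (∑ i ∈ s, a i • r i)),
      AEEqFun.coeFn_smul (a j) (c.J (r j)), ih] with t h1 h2 h3
    rw [h1, Pi.add_apply, h2, Pi.smul_apply, h3, Finset.sum_insert hj, smul_eq_mul]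

/-- perturbation -/
theorem low_pert {E : Type} [NormedAddCommGroup E] [NormedSpace ℝ E] {y z : ℕ → E} (hz : Low z)
    (h : ∀ k, ‖y k - z k‖ ≤ 2 * (1 / 2) ^ k) : ∃ k₀ : ℕ, Low fun k => y (k + k₀) := by
  obtain ⟨κ, hκ, h1⟩ := hz
  obtain ⟨k₀, hk₀⟩ := exists_pow_lt_of_lt_one (show 0 < κ / 8 by positivity)
    (show (1 / 2 : ℝ) < 1 by norm_num)
  refine ⟨k₀, ?_⟩
  have h3 : ∀ (s : Finset ℕ) (a : ℕ → ℝ), κ * √(∑ i ∈ s, a i ^ 2) ≤ ‖∑ i ∈ s, a i • z (i + k₀)‖ := by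
    intro s a
    have h4 := h1 (s.map ⟨fun k => k + k₀, fun a b hab => Nat.add_right_cancel hab⟩)
      (fun n => a (n - k₀))
    rw [Finset.sum_map, Finset.sum_map] at h4
    have h4' : κ * √(∑ i ∈ s, (a (i + k₀ - k₀)) ^ 2) ≤ ‖∑ i ∈ s, a (i + k₀ - k₀) • z (i + k₀)‖ := h4
    simpa only [Nat.add_sub_cancel] using h4'
  refine ⟨κ / 2, by positivity, fun s a => ?_⟩
  have h5 : ‖∑ i ∈ s, a i • z (i + k₀)‖ ≤ ‖∑ i ∈ s, a i • y (i + k₀)‖ +
      ∑ i ∈ s, |a i| * (2 * (1 / 2) ^ (i + k₀)) := by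
    have h6 : ∑ i ∈ s, a i • z (i + k₀) = ∑ i ∈ s, a i • y (i + k₀) -
        ∑ i ∈ s, a i • (y (i + k₀) - z (i + k₀)) := by
      rw [← Finset.sum_sub_distrib]
      refine Finset.sum_congr rfl fun i _ => ?_
      rw [smul_sub, sub_sub_cancel]
    rw [h6]
    refine (norm_sub_le _ _).trans (add_le_add le_rfl ?_)
    refine (norm_sum_le _ _).trans (Finset.sum_le_sum fun i _ => ?_)
    rw [norm_smul, Real.norm_eq_abs]
    exact mul_le_mul_of_nonneg_left (h _) (abs_nonneg _)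
  have h7 : ∑ i ∈ s, |a i| * (2 * (1 / 2) ^ (i + k₀)) ≤ κ / 2 * √(∑ i ∈ s, a i ^ 2) := by
    have h8 : ∀ i ∈ s, |a i| ≤ √(∑ i ∈ s, a i ^ 2) := by
      intro i hi
      rw [← Real.sqrt_sq_eq_abs]
      exact Real.sqrt_le_sqrt (Finset.single_le_sum (f := fun i => a i ^ 2)
        (fun j _ => sq_nonneg _) hi)
    calc ∑ i ∈ s, |a i| * (2 * (1 / 2) ^ (i + k₀))
        ≤ ∑ i ∈ s, √(∑ i ∈ s, a i ^ 2) * (2 * (1 / 2) ^ (i + k₀)) :=
          Finset.sum_le_sum fun i hi => mul_le_mul_of_nonneg_right (h8 i hi) (by positivity)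
      _ = √(∑ i ∈ s, a i ^ 2) * (2 * (1 / 2) ^ k₀) * ∑ i ∈ s, (1 / 2 : ℝ) ^ i := by
          rw [Finset.mul_sum]
          refine Finset.sum_congr rfl fun i _ => ?_
          rw [pow_add]; ring
      _ ≤ √(∑ i ∈ s, a i ^ 2) * (2 * (1 / 2) ^ k₀) * 2 := by
          refine mul_le_mul_of_nonneg_left ?_ (by positivity)
          have h9 := Summable.sum_le_tsum s (fun i _ => by positivity)
            (summable_geometric_two)
          rwa [tsum_geometric_two] at h9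
      _ ≤ κ / 2 * √(∑ i ∈ s, a i ^ 2) := by
          have h10 : (1 / 2 : ℝ) ^ k₀ ≤ κ / 8 := hk₀.le
          nlinarith [Real.sqrt_nonneg (∑ i ∈ s, a i ^ 2)]
  have h8 := h3 s a
  linarith

/-- the case of large `L²` norms -/
theorem caseA (hB : DictB) (hD2 : P_D2) (c : Cx) (y : ℕ → c.E) (hW : Wn fun n => c.J (y n)) (η : ℝ)
    (hη : 0 < η) (hfr : ∃ᶠ n in atTop, η ≤ ∫ t, (c.J (y n) t) ^ 2 ∂mu) :
    ∃ φ : ℕ → ℕ, StrictMono φ ∧ Low fun k => y (φ k) := by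
  obtain ⟨φ, hφ, h1⟩ := extraction_of_frequently_atTop hfr
  obtain ⟨C, hC, h9⟩ := hB.N9 c
  obtain ⟨ψ, κ, hψ, hκ, h2⟩ := hD2 (fun n => c.J (y (φ n))) (fun n => (h9 _).1)
    (fun g hg => (hW g hg).comp hφ.tendsto_atTop) η hη h1
  refine ⟨fun k => φ (ψ k), hφ.comp hψ, √(κ / C), by positivity, fun s a => ?_⟩
  have h3 := h2 s a
  have h4 : ∫ t, (∑ i ∈ s, a i * c.J (y (φ (ψ i))) t) ^ 2 ∂mu =
      ∫ t, (c.J (∑ i ∈ s, a i • y (φ (ψ i))) t) ^ 2 ∂mu := by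
    refine integral_congr_ae ?_
    filter_upwards [J_sum c s a (fun k => y (φ (ψ k)))] with t ht
    rw [ht]
  rw [h4] at h3
  have h5 := (h9 (∑ i ∈ s, a i • y (φ (ψ i)))).2
  rw [← Real.sqrt_mul (by positivity)]
  refine Real.sqrt_le_iff.2 ⟨norm_nonneg _, ?_⟩
  rw [div_mul_eq_mul_div, div_le_iff₀ hC]
  linarith

/-- cutting the small values -/
theorem cutB (hB : DictB) (c : Cx) (y : ℕ → c.E)
    (h0 : ∀ η : ℝ, 0 < η → ∀ᶠ n in atTop, ∫ t, (c.J (y n) t) ^ 2 ∂mu < η) (ε ξ : ℝ) (hε : 0 < ε)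
    (hξ : 0 < ξ) : ∀ᶠ n in atTop, ∃ e : c.E, ‖y n - e‖ ≤ ε ∧
      mu {t | c.J e t ≠ 0} ≤ ENNReal.ofReal ξ ∧ ∀ᵐ t ∂mu, |c.J e t| ≤ |c.J (y n) t| := by
  obtain ⟨C, hC, h10⟩ := hB.N10 c
  obtain ⟨C₂, hC₂, h9⟩ := hB.N9 c
  filter_upwards [h0 (ε ^ 4 / C) (by positivity), h0 ξ hξ] with n h1 h2
  have hm : MeasurableSet {t | |c.J (y n) t| ≤ 1} :=
    measurableSet_le (meas_J c (y n)).abs measurable_const
  obtain ⟨e₁, he₁⟩ := hB.N6 c (y n) _ hm
  have he₁' : c.J e₁ =ᵐ[mu] {t | |c.J (y n) t| ≤ 1}.indicator (c.J (y n)) := he₁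
  have hint : Integrable (fun t => (c.J (y n) t) ^ 2) mu := (h9 (y n)).1.integrable_sq
  have hb : ∀ᵐ t ∂mu, |c.J e₁ t| ≤ 1 := by
    filter_upwards [he₁'] with t ht
    rw [ht]
    by_cases h3 : t ∈ {t | |c.J (y n) t| ≤ 1}
    · rw [indicator_of_mem h3]; exact h3
    · rw [indicator_of_notMem h3, abs_zero]; exact zero_le_one
  refine ⟨y n - e₁, ?_, ?_, ?_⟩
  · rw [sub_sub_cancel]
    have h3 := h10 e₁ (MemLp.of_bound (c.J e₁).aestronglyMeasurable 1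
      (by simpa only [Real.norm_eq_abs] using hb))
    have h4 : ∫ t, (c.J e₁ t) ^ 4 ∂mu ≤ ∫ t, (c.J (y n) t) ^ 2 ∂mu := by
      refine integral_mono_of_nonneg (Eventually.of_forall fun t => by positivity) hint ?_
      filter_upwards [he₁', hb] with t ht h5
      show (c.J e₁ t) ^ 4 ≤ (c.J (y n) t) ^ 2
      have h6 : (c.J e₁ t) ^ 2 ≤ 1 := by
        rw [← sq_abs]; exact pow_le_one₀ (abs_nonneg _) h5
      have h7 : (c.J e₁ t) ^ 2 ≤ (c.J (y n) t) ^ 2 := by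
        rw [ht]
        by_cases h3 : t ∈ {t | |c.J (y n) t| ≤ 1}
        · rw [indicator_of_mem h3]
        · rw [indicator_of_notMem h3]; simp only [ne_eq, OfNat.ofNat_ne_zero, not_false_eq_true, zero_pow]; positivity
      calc (c.J e₁ t) ^ 4 = (c.J e₁ t) ^ 2 * (c.J e₁ t) ^ 2 := by ring
        _ ≤ 1 * (c.J (y n) t) ^ 2 := by gcongr
        _ = _ := one_mul _
    have h5 : ‖e₁‖ ^ 4 ≤ ε ^ 4 := by
      refine h3.trans ?_
      calc C * ∫ t, (c.J e₁ t) ^ 4 ∂mu ≤ C * (ε ^ 4 / C) := by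
            refine mul_le_mul_of_nonneg_left (h4.trans h1.le) hC.le
        _ = ε ^ 4 := by field_simp
    exact le_of_pow_le_pow_left₀ (by norm_num) hε.le h5
  · have h3 := mul_meas_ge_le_integral_of_nonneg (μ := mu)
      (f := fun t => (c.J (y n) t) ^ 2) (Eventually.of_forall fun t => by positivity) hint 1
    rw [one_mul] at h3
    have h4 : mu {t | c.J (y n - e₁) t ≠ 0} ≤ mu {t | 1 ≤ (c.J (y n) t) ^ 2} := by
      refine measure_mono_ae ?_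
      filter_upwards [he₁', J_sub c (y n) e₁] with t ht hs h5
      have h5' : c.J (y n - e₁) t ≠ 0 := h5
      rw [hs, ht] at h5'
      show 1 ≤ (c.J (y n) t) ^ 2
      by_cases h3 : t ∈ {t | |c.J (y n) t| ≤ 1}
      · rw [indicator_of_mem h3, sub_self] at h5'; exact absurd rfl h5'
      · have h6 : 1 < |c.J (y n) t| := not_le.1 h3
        rw [← sq_abs]
        nlinarith
    refine h4.trans ?_
    rw [← ENNReal.ofReal_toReal (measure_ne_top mu {t | 1 ≤ (c.J (y n) t) ^ 2})]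
    exact ENNReal.ofReal_le_ofReal (h3.trans h2.le)
  · filter_upwards [he₁', J_sub c (y n) e₁] with t ht hs
    rw [hs, ht]
    by_cases h3 : t ∈ {t | |c.J (y n) t| ≤ 1}
    · rw [indicator_of_mem h3, sub_self, abs_zero]; exact abs_nonneg _
    · rw [indicator_of_notMem h3, sub_zero]

theorem plA (hB : DictB) (hD2 : P_D2) (hD3 : P_D3) (ha : P_a) : P_lA := by
  intro c y B δ hyB hW hδ hyδ
  by_cases hcase : ∃ η : ℝ, 0 < η ∧ ∃ᶠ n in atTop, η ≤ ∫ t, (c.J (y n) t) ^ 2 ∂mu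
  · obtain ⟨η, hη, hfr⟩ := hcase
    exact caseA hB hD2 c y hW η hη hfr
  · push Not at hcase
    set m : ℝ := min 1 (δ / 8) with hm
    have hm0 : 0 < m := lt_min one_pos (by positivity)
    have hm1 : m ≤ 1 := min_le_left _ _
    have hm2 : m ≤ δ / 8 := min_le_right _ _
    obtain ⟨φ₁, hφ₁, h1⟩ := extraction_forall_of_eventually fun k : ℕ =>
      cutB hB c y hcase (m * (1 / 2) ^ k) (1 / ((k : ℝ) + 1)) (by positivity) (by positivity)
    choose d hd1 hd2 hd3 using h1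
    obtain ⟨φ₂, d', hφ₂, h2, h3, h4⟩ := hD3 c d (by
      intro η hη
      obtain ⟨N, hN⟩ := exists_nat_one_div_lt hη
      filter_upwards [eventually_ge_atTop N] with k hk
      refine (hd2 k).trans (ENNReal.ofReal_le_ofReal (le_trans ?_ hN.le))
      have : (N : ℝ) ≤ k := by exact_mod_cast hk
      exact one_div_le_one_div_of_le (by positivity) (by linarith))
      (fun k => m * (1 / 2) ^ k) (fun k => by positivity)
    have hhalf : ∀ k : ℕ, (1 / 2 : ℝ) ^ k ≤ 1 := fun k => pow_le_one₀ (by norm_num) (by norm_num)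
    have hpos : ∀ k : ℕ, (0 : ℝ) < (1 / 2 : ℝ) ^ k := fun k => by positivity
    have h5 : ∀ k, ‖y (φ₁ (φ₂ k)) - d' k‖ ≤ m * (1 / 2) ^ (φ₂ k) + m * (1 / 2) ^ k := by
      intro k
      have e1 : y (φ₁ (φ₂ k)) - d' k = (y (φ₁ (φ₂ k)) - d (φ₂ k)) + (d (φ₂ k) - d' k) := by abel
      rw [e1]
      exact (norm_add_le _ _).trans (add_le_add (hd1 _) (h2 k))
    obtain ⟨φ₃, hφ₃, h6⟩ := ha c d' B (δ / 2)
      (fun k => ((hB.N5 c _ _ (h4 k)).trans (hB.N5 c _ _ (hd3 (φ₂ k)))).trans (hyB _)) h3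
      (by positivity) (by
        intro k
        have e1 := h5 k
        have e2 := hyδ (φ₁ (φ₂ k))
        have e3 : ‖y (φ₁ (φ₂ k))‖ ≤ ‖y (φ₁ (φ₂ k)) - d' k‖ + ‖d' k‖ := by
          have := norm_add_le (y (φ₁ (φ₂ k)) - d' k) (d' k)
          rwa [sub_add_cancel] at this
        have e4 : m * (1 / 2) ^ (φ₂ k) ≤ m * 1 := mul_le_mul_of_nonneg_left (hhalf _) hm0.le
        have e5 : m * (1 / 2) ^ k ≤ m * 1 := mul_le_mul_of_nonneg_left (hhalf _) hm0.le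
        linarith)
    have h7 : ∀ k, ‖y (φ₁ (φ₂ (φ₃ k))) - d' (φ₃ k)‖ ≤ 2 * (1 / 2) ^ k := by
      intro k
      have e1 := h5 (φ₃ k)
      have e2 : (1 / 2 : ℝ) ^ (φ₃ k) ≤ (1 / 2) ^ k :=
        pow_le_pow_of_le_one (by norm_num) (by norm_num) (hφ₃.id_le k)
      have e3 : (1 / 2 : ℝ) ^ (φ₂ (φ₃ k)) ≤ (1 / 2) ^ k :=
        pow_le_pow_of_le_one (by norm_num) (by norm_num) ((hφ₃.id_le k).trans (hφ₂.id_le _))
      have e4 : m * (1 / 2) ^ (φ₂ (φ₃ k)) ≤ 1 * (1 / 2) ^ k :=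
        mul_le_mul hm1 e3 (by positivity) zero_le_one
      have e5 : m * (1 / 2) ^ (φ₃ k) ≤ 1 * (1 / 2) ^ k :=
        mul_le_mul hm1 e2 (by positivity) zero_le_one
      linarith
    obtain ⟨k₀, h8⟩ := low_pert h6 h7
    exact ⟨fun k => φ₁ (φ₂ (φ₃ (k + k₀))),
      (hφ₁.comp (hφ₂.comp hφ₃)).comp (fun a b hab => Nat.add_lt_add_right hab k₀), h8⟩

end Pool.Agent.Q190.KO

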